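import Pool.Agent.V5helper50.SP.Stm

/-!
# Project SP, job WC: power sums in separated intervals of length `ℓ`
(adapted from `Pool.Agent.V5helper1.MT.WC`, with the explicit dependence on the length of the intervals)
-/

set_option autoImplicit false

open Finset

namespace Pool.Agent.V5helper80.SP

open Pool.Agent.V5helper50.SP

/-- A polynomial with prescribed signs on the separated intervals. -/
theorem sgn_poly {ℓ K : ℝ} (hℓ : 0 < ℓ) (hℓ1 : ℓ ≤ 1) (M : ℕ) (b : ℕ → ℝ)
    (hb : ∀ i j, i < j → j < M → b i + 2 * ℓ ≤ b j) (hb1 : ∀ i, i < M → 1 ≤ b i ∧ b i + ℓ ≤ K)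
    (ε : ℕ → ℝ) (hε : ∀ i, ε i = 1 ∨ ε i = -1) : ∀ m : ℕ, m < M →
    ∃ q : Polynomial ℝ, q.natDegree ≤ m ∧ (∀ i, |q.coeff i| ≤ (K + 1) ^ m) ∧
      (∀ i : ℕ, i ≤ m → ∀ t : ℝ, b i ≤ t → t ≤ b i + ℓ → (ℓ / 2) ^ m ≤ ε i * q.eval t) ∧
      (∀ t : ℝ, b m ≤ t → (ℓ / 2) ^ m ≤ ε m * q.eval t) := by
  intro m
  induction m with
  | zero =>
    intro _
    have h1 : ε 0 * ε 0 = 1 := by rcases hε 0 with h | h <;> rw [h] <;> norm_num
    have h0 : |ε 0| = 1 := by rcases hε 0 with h | h <;> rw [h] <;> norm_num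
    refine ⟨Polynomial.C (ε 0), by simp, fun i => ?_, fun i hi t _ _ => ?_, fun t _ => ?_⟩
    · rw [Polynomial.coeff_C]
      split_ifs
      · rw [h0, pow_zero]
      · simp
    · have : i = 0 := by omega
      subst this
      rw [Polynomial.eval_C, h1, pow_zero]
    · rw [Polynomial.eval_C, h1, pow_zero]
  | succ m ih =>
    intro hmM
    obtain ⟨q, hq, hco, h1, h2⟩ := ih (by omega)
    have hb' := hb m (m + 1) (by omega) hmM
    have hbm := hb1 (m + 1) hmM
    have hK0 : 0 < K := by linarith [hbm.1, hbm.2]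
    have hK1 : 1 ≤ K + 1 := by linarith
    have hKm : 0 ≤ (K + 1) ^ m := by positivity
    have hl0 : 0 < ℓ / 2 := half_pos hℓ
    have hlm : 0 < (ℓ / 2) ^ m := pow_pos hl0 m
    have hlm1 : (ℓ / 2) ^ (m + 1) ≤ (ℓ / 2) ^ m := pow_le_pow_of_le_one hl0.le (by linarith) (Nat.le_succ m)
    have hcases : ε (m + 1) = ε m ∨ ε (m + 1) = - ε m := by
      rcases hε (m + 1) with h | h <;> rcases hε m with h' | h' <;> rw [h, h'] <;> norm_num
    rcases hcases with h | h
    · refine ⟨q, by omega, fun i => ?_, fun i hi t ht1 ht2 => ?_, fun t ht => ?_⟩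
      · refine (hco i).trans ?_
        exact pow_le_pow_right₀ hK1 (Nat.le_succ m)
      · rcases Nat.lt_or_ge m i with h3 | h3
        · have : i = m + 1 := by omega
          subst this
          rw [h]
          exact hlm1.trans (h2 t (by linarith))
        · exact hlm1.trans (h1 i h3 t ht1 ht2)
      · rw [h]
        exact hlm1.trans (h2 t (by linarith))
    · obtain ⟨g, hg⟩ : ∃ g : ℝ, g = b (m + 1) - ℓ / 2 := ⟨_, rfl⟩
      have hg0 : 0 ≤ g := by rw [hg]; linarith [hbm.1]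
      have hgK : g ≤ K := by rw [hg]; linarith [hbm.2]
      have hbig : ∀ t : ℝ, b (m + 1) ≤ t →
          (ℓ / 2) ^ (m + 1) ≤ ε (m + 1) * ((Polynomial.C g - Polynomial.X) * q).eval t := by
        intro t ht
        have h3 := h2 t (by linarith)
        rw [h, Polynomial.eval_mul, Polynomial.eval_sub, Polynomial.eval_C, Polynomial.eval_X]
        have h4 : ℓ / 2 ≤ t - g := by rw [hg]; linarith
        have h5 : - ε m * ((g - t) * q.eval t) = (t - g) * (ε m * q.eval t) := by ring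
        rw [h5, pow_succ, mul_comm]
        exact mul_le_mul h4 h3 hlm.le (by linarith)
      refine ⟨(Polynomial.C g - Polynomial.X) * q, ?_, fun i => ?_, fun i hi t ht1 ht2 => ?_, hbig⟩
      · refine Polynomial.natDegree_mul_le.trans ?_
        have h3 : (Polynomial.C g - Polynomial.X).natDegree ≤ 1 := by
          refine (Polynomial.natDegree_sub_le _ _).trans ?_
          rw [Polynomial.natDegree_C, Polynomial.natDegree_X]
          norm_num
        omega
      · have e1 : |g * q.coeff i| ≤ K * (K + 1) ^ m := by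
          rw [abs_mul, abs_of_nonneg hg0]
          exact mul_le_mul hgK (hco i) (abs_nonneg _) hK0.le
        have e2 : |(Polynomial.X * q).coeff i| ≤ (K + 1) ^ m := by
          rcases i with _ | i
          · rw [Polynomial.mul_coeff_zero, Polynomial.coeff_X_zero, zero_mul, abs_zero]
            exact hKm
          · rw [Polynomial.coeff_X_mul]
            exact hco i
        rw [sub_mul, Polynomial.coeff_sub, Polynomial.coeff_C_mul]
        calc |g * q.coeff i - (Polynomial.X * q).coeff i| ≤ |g * q.coeff i| + |(Polynomial.X * q).coeff i| :=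
              abs_sub _ _
          _ ≤ K * (K + 1) ^ m + (K + 1) ^ m := add_le_add e1 e2
          _ = (K + 1) ^ (m + 1) := by ring
      · rcases Nat.lt_or_ge m i with h3 | h3
        · have : i = m + 1 := by omega
          subst this
          exact hbig t ht1
        · have h4 := h1 i h3 t ht1 ht2
          have h5 := hb i (m + 1) (by omega) hmM
          rw [Polynomial.eval_mul, Polynomial.eval_sub, Polynomial.eval_C, Polynomial.eval_X]
          have h6 : ℓ / 2 ≤ g - t := by rw [hg]; linarith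
          have h7 : ε i * ((g - t) * q.eval t) = (g - t) * (ε i * q.eval t) := by ring
          rw [h7, pow_succ, mul_comm]
          exact mul_le_mul h6 h4 hlm.le (by linarith)

/-- The estimate at unit scale. -/
theorem unit_scale (r m : ℕ) (hm : 1 ≤ m) {ℓ K : ℝ} (hℓ : 0 < ℓ) (hℓ1 : ℓ ≤ 1) (b x y : Fin m → ℝ)
    (hb : ∀ i j : Fin m, i < j → b i + 2 * ℓ ≤ b j) (hb1 : ∀ i, 1 ≤ b i ∧ b i + ℓ ≤ K)
    (hx : ∀ i, b i ≤ x i ∧ x i ≤ b i + ℓ) (hy : ∀ i, b i ≤ y i ∧ y i ≤ b i + ℓ) :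
    ∀ i, |x i - y i| * (ℓ / 2) ^ (m - 1) ≤
      m * (K + 1) ^ (m - 1) * ∑ j ∈ Icc (r + 1) (r + m), |∑ l, (x l ^ j - y l ^ j)| := by
  classical
  obtain ⟨bb, hbb⟩ : ∃ bb : ℕ → ℝ, bb = fun n => if h : n < m then b ⟨n, h⟩ else 0 := ⟨_, rfl⟩
  obtain ⟨ε, hεd⟩ : ∃ ε : ℕ → ℝ, ε = fun n => if h : n < m then (if y ⟨n, h⟩ ≤ x ⟨n, h⟩ then 1 else -1) else 1 :=
    ⟨_, rfl⟩
  have hbl : ∀ l : Fin m, bb l = b l := fun l => by rw [hbb]; simp only; rw [dif_pos l.isLt]
  have hε : ∀ i, ε i = 1 ∨ ε i = -1 := by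
    intro i
    rw [hεd]
    simp only
    split_ifs <;> simp
  have hs : ∀ l : Fin m, ε l = if y l ≤ x l then 1 else -1 := fun l => by
    rw [hεd]
    simp only
    rw [dif_pos l.isLt]
  obtain ⟨q, hq, hco, h1, -⟩ := sgn_poly (K := K) hℓ hℓ1 m bb
    (fun i j hij hj => by
      have := hb ⟨i, by omega⟩ ⟨j, hj⟩ hij
      have e1 := hbl ⟨i, by omega⟩
      have e2 := hbl ⟨j, hj⟩
      simp only at e1 e2
      rw [e1, e2]
      exact this)
    (fun i hi => by
      have := hb1 ⟨i, hi⟩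
      have e1 := hbl ⟨i, hi⟩
      simp only at e1
      rw [e1]
      exact this) ε hε (m - 1) (by omega)
  have hq' : q.natDegree < m := by omega
  intro i
  obtain ⟨c, hcd⟩ : ∃ c : ℝ, c = (ℓ / 2) ^ (m - 1) := ⟨_, rfl⟩
  rw [← hcd] at h1 ⊢
  have hc : 0 < c := by rw [hcd]; positivity
  have hK0 : 0 < K := by linarith [(hb1 i).1, (hb1 i).2]
  obtain ⟨B, hB⟩ : ∃ B, B = ∑ i ∈ range m, |q.coeff i / ((i : ℝ) + r + 1)| := ⟨_, rfl⟩
  have hBle : B ≤ m * (K + 1) ^ (m - 1) := by
    rw [hB]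
    calc ∑ i ∈ range m, |q.coeff i / ((i : ℝ) + r + 1)| ≤ ∑ _i ∈ range m, (K + 1) ^ (m - 1) := by
          refine sum_le_sum fun i _ => ?_
          have h0 : (1 : ℝ) ≤ (i : ℝ) + r + 1 := by
            have : (0 : ℝ) ≤ (i : ℝ) + r := by positivity
            linarith
          rw [abs_div, abs_of_pos (by linarith : (0 : ℝ) < (i : ℝ) + r + 1)]
          exact (div_le_self (abs_nonneg _) h0).trans (hco i)
      _ = _ := by rw [sum_const, card_range, nsmul_eq_mul]
  set Q : ℝ → ℝ := fun t => ∑ i ∈ range m, q.coeff i / ((i : ℝ) + r + 1) * t ^ (i + r + 1) with hQ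
  have hd : ∀ t, HasDerivAt Q (t ^ r * q.eval t) t := by
    intro t
    have e : t ^ r * q.eval t = ∑ i ∈ range m, q.coeff i / ((i : ℝ) + r + 1) *
        (((i + r + 1 : ℕ) : ℝ) * t ^ (i + r + 1 - 1)) := by
      rw [Polynomial.eval_eq_sum_range' hq', mul_sum]
      refine sum_congr rfl fun i _ => ?_
      have h0 : (i : ℝ) + r + 1 ≠ 0 := by positivity
      rw [Nat.add_sub_cancel, pow_add]
      push_cast
      field_simp
    rw [e]
    exact HasDerivAt.fun_sum fun i _ => (hasDerivAt_pow (i + r + 1) t).const_mul _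
  have hcont : Continuous Q := continuous_iff_continuousAt.2 fun t => (hd t).continuousAt
  have hlow : ∀ l : Fin m, c * |x l - y l| ≤ Q (x l) - Q (y l) := by
    intro l
    have hl : (l : ℕ) ≤ m - 1 := by have := l.isLt; omega
    have hder : ∀ ξ : ℝ, b l ≤ ξ → ξ ≤ b l + ℓ → c ≤ ε l * (ξ ^ r * q.eval ξ) := by
      intro ξ h2 h3
      have h4 := h1 l hl ξ (by rw [hbl]; exact h2) (by rw [hbl]; exact h3)
      have h5 : (1 : ℝ) ≤ ξ := (hb1 l).1.trans h2
      have h6 : (1 : ℝ) ≤ ξ ^ r := one_le_pow₀ h5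
      calc c = 1 * c := by ring
        _ ≤ ξ ^ r * (ε l * q.eval ξ) := mul_le_mul h6 h4 hc.le (by linarith)
        _ = ε l * (ξ ^ r * q.eval ξ) := by ring
    rcases lt_trichotomy (x l) (y l) with hlt | heq | hgt
    · obtain ⟨ξ, hξ, he⟩ := exists_hasDerivAt_eq_slope Q (fun t => t ^ r * q.eval t) hlt
        hcont.continuousOn (fun t _ => hd t)
      have h2 := hder ξ (by have := (hx l).1; linarith [hξ.1]) (by have := (hy l).2; linarith [hξ.2])
      have h3 : ε l = -1 := by rw [hs, if_neg (not_le.2 hlt)]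
      rw [h3] at h2
      have h4 : 0 < y l - x l := by linarith
      rw [eq_div_iff h4.ne'] at he
      rw [abs_of_neg (by linarith)]
      nlinarith [mul_le_mul_of_nonneg_right h2 h4.le]
    · rw [heq]; simp
    · obtain ⟨ξ, hξ, he⟩ := exists_hasDerivAt_eq_slope Q (fun t => t ^ r * q.eval t) hgt
        hcont.continuousOn (fun t _ => hd t)
      have h2 := hder ξ (by have := (hy l).1; linarith [hξ.1]) (by have := (hx l).2; linarith [hξ.2])
      have h3 : ε l = 1 := by rw [hs, if_pos hgt.le]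
      rw [h3] at h2
      have h4 : 0 < x l - y l := by linarith
      rw [eq_div_iff h4.ne'] at he
      rw [abs_of_pos (by linarith)]
      nlinarith [mul_le_mul_of_nonneg_right h2 h4.le]
  have h3 : c * |x i - y i| ≤ ∑ l, (Q (x l) - Q (y l)) :=
    (hlow i).trans (single_le_sum (f := fun l => Q (x l) - Q (y l))
      (fun l _ => (by positivity : (0 : ℝ) ≤ c * |x l - y l|).trans (hlow l)) (mem_univ i))
  set T := ∑ j ∈ Icc (r + 1) (r + m), |∑ l, (x l ^ j - y l ^ j)| with hT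
  have hT0 : 0 ≤ T := sum_nonneg fun _ _ => abs_nonneg _
  have h4 : ∑ l, (Q (x l) - Q (y l)) ≤ B * T := by
    have e : ∑ l, (Q (x l) - Q (y l)) = ∑ i ∈ range m, q.coeff i / ((i : ℝ) + r + 1) *
        ∑ l, (x l ^ (i + r + 1) - y l ^ (i + r + 1)) := by
      simp only [hQ, ← sum_sub_distrib, mul_sum]
      rw [sum_comm]
      refine sum_congr rfl fun i _ => sum_congr rfl fun l _ => ?_
      ring
    rw [e, hB, sum_mul]
    refine sum_le_sum fun i hi => ?_
    refine (le_abs_self _).trans ?_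
    rw [abs_mul]
    refine mul_le_mul_of_nonneg_left ?_ (abs_nonneg _)
    refine single_le_sum (f := fun j => |∑ l, (x l ^ j - y l ^ j)|) (fun _ _ => abs_nonneg _) ?_
    rw [mem_Icc]
    have := mem_range.1 hi
    omega
  calc |x i - y i| * c = c * |x i - y i| := mul_comm _ _
    _ ≤ B * T := h3.trans h4
    _ ≤ _ := mul_le_mul_of_nonneg_right hBle hT0

/-- WC -/
theorem t_WC : S_WC := by
  intro r m K hm
  refine ⟨2 ^ (m - 1) * (m * ((K : ℝ) + 1) ^ (m - 1)), by
    have : (0 : ℝ) < m := by exact_mod_cast hm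
    positivity, ?_⟩
  intro X ℓ hℓ hℓX b x y hb hb1 hx hy i
  have hX : 0 < X := lt_of_lt_of_le hℓ hℓX
  have key := unit_scale r m hm (ℓ := ℓ / X) (K := K) (by positivity) ((div_le_one hX).2 hℓX)
    (fun i => b i / X) (fun i => x i / X) (fun i => y i / X)
    (fun i j hij => by
      rw [← mul_div_assoc, ← add_div]
      exact div_le_div_of_nonneg_right (hb i j hij) hX.le)
    (fun i => by
      constructor
      · rw [le_div_iff₀ hX, one_mul]
        exact (hb1 i).1
      · rw [← add_div, div_le_iff₀ hX]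
        exact (hb1 i).2)
    (fun i => by
      rw [← add_div]
      exact ⟨div_le_div_of_nonneg_right (hx i).1 hX.le, div_le_div_of_nonneg_right (hx i).2 hX.le⟩)
    (fun i => by
      rw [← add_div]
      exact ⟨div_le_div_of_nonneg_right (hy i).1 hX.le, div_le_div_of_nonneg_right (hy i).2 hX.le⟩) i
  have e1 : |x i / X - y i / X| = |x i - y i| / X := by
    rw [← sub_div, abs_div, abs_of_pos hX]
  have e2 : ∑ j ∈ Icc (r + 1) (r + m), |∑ l, ((x l / X) ^ j - (y l / X) ^ j)| =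
      (∑ j ∈ Icc (r + 1) (r + m), |∑ l, (x l ^ j - y l ^ j)| * X ^ (r + m - j)) / X ^ (r + m) := by
    rw [sum_div]
    refine sum_congr rfl fun j hj => ?_
    have hj1 : j ≤ r + m := (mem_Icc.1 hj).2
    have e3 : ∑ l, ((x l / X) ^ j - (y l / X) ^ j) = (∑ l, (x l ^ j - y l ^ j)) / X ^ j := by
      rw [sum_div]
      refine sum_congr rfl fun l _ => ?_
      rw [div_pow, div_pow, ← sub_div]
    rw [e3, abs_div, abs_of_pos (pow_pos hX j), div_eq_div_iff (pow_pos hX j).ne' (pow_pos hX _).ne',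
      mul_assoc, ← pow_add, Nat.sub_add_cancel hj1]
  rw [e1, e2] at key
  obtain ⟨S, hS⟩ : ∃ S, S = ∑ j ∈ Icc (r + 1) (r + m), |∑ l, (x l ^ j - y l ^ j)| * X ^ (r + m - j) := ⟨_, rfl⟩
  rw [← hS] at key ⊢
  obtain ⟨n, rfl⟩ : ∃ n, m = n + 1 := ⟨m - 1, by omega⟩
  rw [Nat.add_sub_cancel] at key ⊢
  have hXp : 0 < X ^ (r + (n + 1)) := pow_pos hX _
  have e4 : |x i - y i| / X * (ℓ / X / 2) ^ n * (2 ^ n * X ^ (r + (n + 1))) = |x i - y i| * ℓ ^ n * X ^ r := by
    rw [div_pow, div_pow, pow_add, pow_succ]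
    field_simp
  calc |x i - y i| * ℓ ^ n * X ^ r = |x i - y i| / X * (ℓ / X / 2) ^ n * (2 ^ n * X ^ (r + (n + 1))) := e4.symm
    _ ≤ ((n + 1 : ℕ) : ℝ) * ((K : ℝ) + 1) ^ n * (S / X ^ (r + (n + 1))) * (2 ^ n * X ^ (r + (n + 1))) :=
        mul_le_mul_of_nonneg_right key (by positivity)
    _ = 2 ^ n * (((n + 1 : ℕ) : ℝ) * ((K : ℝ) + 1) ^ n) * S := by
        field_simp

end Pool.Agent.V5helper80.SP
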